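import Mathlib

/-!
# The Peres conjecture fails for random walks on cycles

We construct symmetric probability measures on cyclic groups whose convolution walks have bounded
relaxation time and total variation mixing time tending to infinity, but no cutoff.
-/

set_option autoImplicit false
set_option linter.unusedSectionVars false
set_option linter.unusedVariables false

open Finset Filter Topology

namespace Pool.Agent.Results.MP_ee50b4_pr.NoCutoff

noncomputable section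

section general

variable {G : Type*} [AddCommGroup G] [Fintype G] [DecidableEq G]

/-- `μ` is a probability vector. -/
def IsProb (μ : G → ℝ) : Prop := (∀ x, 0 ≤ μ x) ∧ ∑ x, μ x = 1

/-- Convolution of two functions. -/
def conv (μ ν : G → ℝ) : G → ℝ := fun x => ∑ y, μ y * ν (x - y)

/-- The `t`-fold convolution power of `μ`: the law at time `t` of the walk with step law `μ` started
at `0`. -/
def cpow (μ : G → ℝ) : ℕ → G → ℝ
  | 0 => fun x => if x = 0 then 1 else 0
  | t + 1 => conv (cpow μ t) μ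

/-- Total variation distance of `μ` to the uniform distribution. -/
def tv (μ : G → ℝ) : ℝ := (1 / 2) * ∑ x, |μ x - 1 / (Fintype.card G : ℝ)|

/-- The total variation mixing time: the least `t` at which the law of the walk is within `η` of the
uniform distribution. -/
def Tmix (μ : G → ℝ) (η : ℝ) : ℕ := sInf {t : ℕ | tv (cpow μ t) ≤ η}

lemma sum_conv (μ ν : G → ℝ) : ∑ x, conv μ ν x = (∑ x, μ x) * ∑ x, ν x := by
  unfold conv
  rw [Finset.sum_comm, Finset.sum_mul]
  refine Finset.sum_congr rfl fun y _ => ?_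
  rw [← Finset.mul_sum]
  congr 1
  exact Fintype.sum_equiv (Equiv.subRight y) _ _ (fun x => rfl)

lemma sum_cpow (μ : G → ℝ) (h : ∑ x, μ x = 1) (t : ℕ) : ∑ x, cpow μ t x = 1 := by
  induction t with
  | zero => simp [cpow]
  | succ t ih => simp only [cpow]; rw [sum_conv, ih, h, mul_one]

lemma cpow_nonneg (μ : G → ℝ) (h : ∀ x, 0 ≤ μ x) (t : ℕ) : ∀ x, 0 ≤ cpow μ t x := by
  induction t with
  | zero => intro x; simp only [cpow]; split_ifs <;> norm_num
  | succ t ih =>
    intro x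
    simp only [cpow, conv]
    exact Finset.sum_nonneg fun y _ => mul_nonneg (ih y) (h _)

lemma sum_sub_right (ν : G → ℝ) (x : G) : ∑ y, ν (x - y) = ∑ y, ν y :=
  Fintype.sum_equiv (Equiv.subLeft x) _ _ (fun y => rfl)

/-- mixing with the uniform distribution -/
def mix (ε : ℝ) (ν : G → ℝ) : G → ℝ := fun x => (1 - ε) * ν x + ε * (1 / (Fintype.card G : ℝ))

lemma card_ne : (Fintype.card G : ℝ) ≠ 0 := by
  have : 0 < Fintype.card G := Fintype.card_pos_iff.2 ⟨0⟩
  positivity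

lemma cpow_mix (ε : ℝ) (ν : G → ℝ) (h : ∑ x, ν x = 1) (t : ℕ) (x : G) :
    cpow (mix ε ν) t x = (1 - ε) ^ t * cpow ν t x +
      (1 - (1 - ε) ^ t) * (1 / (Fintype.card G : ℝ)) := by
  induction t generalizing x with
  | zero => simp [cpow]
  | succ t ih =>
    simp only [cpow, conv]
    simp only [ih, mix]
    have e1 : ∀ y, ((1 - ε) ^ t * cpow ν t y + (1 - (1 - ε) ^ t) * (1 / (Fintype.card G : ℝ))) *
        ((1 - ε) * ν (x - y) + ε * (1 / (Fintype.card G : ℝ))) =
        (1 - ε) ^ (t + 1) * (cpow ν t y * ν (x - y)) +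
        (1 - ε) ^ t * ε * (1 / (Fintype.card G : ℝ)) * cpow ν t y +
        (1 - (1 - ε) ^ t) * (1 / (Fintype.card G : ℝ)) * (1 - ε) * ν (x - y) +
        (1 - (1 - ε) ^ t) * ε * (1 / (Fintype.card G : ℝ)) * (1 / (Fintype.card G : ℝ)) := by
      intro y; ring
    rw [Finset.sum_congr rfl (fun y _ => e1 y)]
    rw [Finset.sum_add_distrib, Finset.sum_add_distrib, Finset.sum_add_distrib,
      ← Finset.mul_sum, ← Finset.mul_sum, ← Finset.mul_sum, sum_cpow ν h, sum_sub_right, h]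
    simp only [Finset.sum_const, Finset.card_univ, nsmul_eq_mul]
    have hc : (Fintype.card G : ℝ) ≠ 0 := card_ne
    field_simp
    ring

lemma tv_cpow_mix (ε : ℝ) (h1 : ε ≤ 1) (ν : G → ℝ) (h : ∑ x, ν x = 1) (t : ℕ) :
    tv (cpow (mix ε ν) t) = (1 - ε) ^ t * tv (cpow ν t) := by
  unfold tv
  have e1 : ∀ x, |cpow (mix ε ν) t x - 1 / (Fintype.card G : ℝ)| =
      (1 - ε) ^ t * |cpow ν t x - 1 / (Fintype.card G : ℝ)| := by
    intro x
    rw [cpow_mix ε ν h]
    have h2 : 0 ≤ (1 - ε) ^ t := pow_nonneg (by linarith) _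
    rw [← abs_of_nonneg h2, ← abs_mul, abs_of_nonneg h2]
    congr 1
    ring
  rw [Finset.sum_congr rfl (fun x _ => e1 x), ← Finset.mul_sum]
  ring

lemma tv_le_one (μ : G → ℝ) (h0 : ∀ x, 0 ≤ μ x) (h : ∑ x, μ x = 1) : tv μ ≤ 1 := by
  unfold tv
  have h2 : ∑ x, |μ x - 1 / (Fintype.card G : ℝ)| ≤ ∑ x, (μ x + 1 / (Fintype.card G : ℝ)) := by
    refine Finset.sum_le_sum fun x _ => ?_
    have h3 : 0 ≤ 1 / (Fintype.card G : ℝ) := by positivity
    rw [abs_le]
    constructor <;> linarith [h0 x]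
  rw [Finset.sum_add_distrib, h] at h2
  simp only [Finset.sum_const, Finset.card_univ, nsmul_eq_mul] at h2
  rw [mul_one_div_cancel (card_ne (G := G))] at h2
  linarith

/-- lower bound of the total variation distance by an event -/
lemma tv_ge (μ : G → ℝ) (h : ∑ x, μ x = 1) (B : Finset G) :
    (B.card : ℝ) / (Fintype.card G : ℝ) - ∑ x ∈ B, μ x ≤ tv μ := by
  unfold tv
  have hs : ∑ x, (μ x - 1 / (Fintype.card G : ℝ)) = 0 := by
    rw [Finset.sum_sub_distrib, h]
    simp only [Finset.sum_const, Finset.card_univ, nsmul_eq_mul]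
    rw [mul_one_div_cancel (card_ne (G := G))]; ring
  have h1 : ∑ x ∈ B, (μ x - 1 / (Fintype.card G : ℝ)) +
      ∑ x ∈ Bᶜ, (μ x - 1 / (Fintype.card G : ℝ)) = 0 := by
    rw [Finset.sum_add_sum_compl, hs]
  have h2 : ∑ x ∈ B, |μ x - 1 / (Fintype.card G : ℝ)| +
      ∑ x ∈ Bᶜ, |μ x - 1 / (Fintype.card G : ℝ)| = ∑ x, |μ x - 1 / (Fintype.card G : ℝ)| := by
    rw [Finset.sum_add_sum_compl]
  have h3 : -∑ x ∈ B, (μ x - 1 / (Fintype.card G : ℝ)) ≤
      ∑ x ∈ B, |μ x - 1 / (Fintype.card G : ℝ)| := by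
    rw [← Finset.sum_neg_distrib]
    exact Finset.sum_le_sum fun x _ => neg_le_abs _
  have h4 : ∑ x ∈ Bᶜ, (μ x - 1 / (Fintype.card G : ℝ)) ≤
      ∑ x ∈ Bᶜ, |μ x - 1 / (Fintype.card G : ℝ)| :=
    Finset.sum_le_sum fun x _ => le_abs_self _
  have h5 : ∑ x ∈ B, (μ x - 1 / (Fintype.card G : ℝ)) =
      ∑ x ∈ B, μ x - (B.card : ℝ) / (Fintype.card G : ℝ) := by
    rw [Finset.sum_sub_distrib]
    simp only [Finset.sum_const, nsmul_eq_mul]
    ring
  linarith

end general

section transport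

variable {G H : Type*} [AddCommGroup G] [Fintype G] [DecidableEq G] [AddCommGroup H] [Fintype H]
  [DecidableEq H]

lemma cpow_equiv (φ : G ≃+ H) (ν : H → ℝ) (t : ℕ) (x : G) :
    cpow (fun y => ν (φ y)) t x = cpow ν t (φ x) := by
  induction t generalizing x with
  | zero => simp [cpow]
  | succ t ih =>
    simp only [cpow, conv]
    simp only [ih]
    refine Fintype.sum_equiv φ.toEquiv _ _ fun y => ?_
    simp

lemma tv_equiv (φ : G ≃+ H) (ν : H → ℝ) : tv (fun x => ν (φ x)) = tv ν := by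
  unfold tv
  rw [Fintype.card_congr φ.toEquiv]
  congr 1
  exact Fintype.sum_equiv φ.toEquiv _ _ fun y => rfl

end transport

section product

variable {ι : Type*} [Fintype ι] [DecidableEq ι] {H : ι → Type*} [∀ i, AddCommGroup (H i)]
  [∀ i, Fintype (H i)] [∀ i, DecidableEq (H i)]

/-- product measure -/
def prodM (ν : ∀ i, H i → ℝ) : (∀ i, H i) → ℝ := fun g => ∏ i, ν i (g i)

lemma sum_prod_pi {R : Type*} [CommSemiring R] (f : ∀ i, H i → R) :
    ∑ g : (∀ i, H i), ∏ i, f i (g i) = ∏ i, ∑ z, f i z := by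
  rw [Finset.prod_univ_sum, Fintype.piFinset_univ]

lemma cpow_prodM (ν : ∀ i, H i → ℝ) (t : ℕ) (g : ∀ i, H i) :
    cpow (prodM ν) t g = ∏ i, cpow (ν i) t (g i) := by
  induction t generalizing g with
  | zero =>
    simp only [cpow]
    rw [Finset.prod_boole]
    simp [funext_iff]
  | succ t ih =>
    simp only [cpow, conv]
    simp only [ih, prodM]
    rw [← sum_prod_pi (f := fun i z => cpow (ν i) t z * ν i (g i - z))]
    refine Finset.sum_congr rfl fun y _ => ?_
    rw [← Finset.prod_mul_distrib]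
    rfl

end product

section dirac

variable {G : Type*} [AddCommGroup G] [Fintype G] [DecidableEq G]

/-- the Dirac mass at `0` -/
def dirac : G → ℝ := fun x => if x = 0 then 1 else 0

lemma sum_dirac : ∑ x : G, dirac x = 1 := by simp [dirac]

lemma cpow_dirac (t : ℕ) : cpow (dirac : G → ℝ) t = dirac := by
  induction t with
  | zero => rfl
  | succ t ih =>
    funext x
    simp only [cpow, conv, ih]
    rw [Finset.sum_eq_single (0 : G)]
    · simp [dirac]
    · intro y _ hy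
      simp [dirac, hy]
    · intro h
      exact absurd (Finset.mem_univ _) h

lemma cpow_half (t : ℕ) (x : G) : cpow (mix (1 / 2) (dirac : G → ℝ)) t x =
    (1 / 2) ^ t * dirac x + (1 - (1 / 2) ^ t) * (1 / (Fintype.card G : ℝ)) := by
  rw [cpow_mix _ _ sum_dirac, cpow_dirac]
  norm_num

lemma mix_prob (ε : ℝ) (h0 : 0 ≤ ε) (h1 : ε ≤ 1) (ν : G → ℝ) (h : IsProb ν) : IsProb (mix ε ν) := by
  constructor
  · intro x
    unfold mix
    have := h.1 x
    have h2 : 0 ≤ 1 / (Fintype.card G : ℝ) := by positivity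
    have h3 : 0 ≤ (1 - ε) * ν x := mul_nonneg (by linarith) this
    have h4 := mul_nonneg h0 h2
    linarith
  · unfold mix
    rw [Finset.sum_add_distrib, ← Finset.mul_sum, h.2]
    simp only [Finset.sum_const, Finset.card_univ, nsmul_eq_mul]
    have hc : (Fintype.card G : ℝ) ≠ 0 := card_ne
    field_simp
    ring

lemma dirac_prob : IsProb (dirac : G → ℝ) :=
  ⟨fun x => by unfold dirac; split_ifs <;> norm_num, sum_dirac⟩

end dirac

section product2

variable {ι : Type*} [Fintype ι] [DecidableEq ι] {H : ι → Type*} [∀ i, AddCommGroup (H i)]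
  [∀ i, Fintype (H i)] [∀ i, DecidableEq (H i)]

lemma prodM_prob (ν : ∀ i, H i → ℝ) (h : ∀ i, IsProb (ν i)) : IsProb (prodM ν) := by
  constructor
  · intro g
    exact Finset.prod_nonneg fun i _ => (h i).1 _
  · unfold prodM
    rw [sum_prod_pi]
    exact Finset.prod_eq_one fun i _ => (h i).2

/-- the product walk: every coordinate is refreshed with probability `1/2` -/
def base (H : ι → Type*) [∀ i, AddCommGroup (H i)]
  [∀ i, Fintype (H i)] [∀ i, DecidableEq (H i)] : (∀ i, H i) → ℝ :=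
  prodM (fun i => mix (1 / 2) (dirac : H i → ℝ))

lemma base_prob : IsProb (base H) :=
  prodM_prob _ fun i => mix_prob _ (by norm_num) (by norm_num) _ dirac_prob

lemma sum_erase (i : ι) (t : ℕ) : ∑ z ∈ (univ.erase 0 : Finset (H i)),
    cpow (mix (1 / 2) (dirac : H i → ℝ)) t z ≤ 1 - (1 / 2) ^ t := by
  have h1 : ∀ z ∈ (univ.erase 0 : Finset (H i)), cpow (mix (1 / 2) (dirac : H i → ℝ)) t z =
      (1 - (1 / 2) ^ t) * (1 / (Fintype.card (H i) : ℝ)) := by
    intro z hz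
    rw [cpow_half]
    have : z ≠ 0 := Finset.ne_of_mem_erase hz
    simp [dirac, this]
  rw [Finset.sum_congr rfl h1]
  simp only [Finset.sum_const, nsmul_eq_mul]
  have hc : (0 : ℝ) < Fintype.card (H i) := by
    have : 0 < Fintype.card (H i) := Fintype.card_pos_iff.2 ⟨0⟩
    exact_mod_cast this
  have h2 : (((univ.erase 0 : Finset (H i)).card : ℕ) : ℝ) ≤ Fintype.card (H i) := by
    exact_mod_cast Finset.card_le_univ _
  have h3 : (0 : ℝ) ≤ 1 - (1 / 2) ^ t := by
    have : (1 / 2 : ℝ) ^ t ≤ 1 := pow_le_one₀ (by norm_num) (by norm_num)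
    linarith
  rw [mul_comm, mul_assoc]
  have h4 : 1 / (Fintype.card (H i) : ℝ) * ((univ.erase 0 : Finset (H i)).card : ℝ) ≤ 1 := by
    rw [div_mul_eq_mul_div, one_mul, div_le_one hc]
    exact h2
  calc (1 - (1 / 2 : ℝ) ^ t) * (1 / (Fintype.card (H i) : ℝ) * ((univ.erase 0 : Finset (H i)).card : ℝ))
      ≤ (1 - (1 / 2 : ℝ) ^ t) * 1 := mul_le_mul_of_nonneg_left h4 h3
    _ = _ := mul_one _

/-- total variation lower bound for the product walk -/
lemma tv_base (P : ℕ) (hP : 0 < P) (h : ∀ i, P ≤ Fintype.card (H i)) (t : ℕ) :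
    1 - (Fintype.card ι : ℝ) / P - (1 - (1 / 2) ^ t) ^ (Fintype.card ι) ≤ tv (cpow (base H) t) := by
  have h1 := tv_ge (cpow (base H) t) (sum_cpow _ base_prob.2 t)
    (Fintype.piFinset (fun i => (univ.erase 0 : Finset (H i))))
  have h2 : ∑ x ∈ Fintype.piFinset (fun i => (univ.erase 0 : Finset (H i))), cpow (base H) t x ≤
      (1 - (1 / 2) ^ t) ^ (Fintype.card ι) := by
    unfold base
    simp only [cpow_prodM]
    rw [← Finset.prod_univ_sum]
    rw [← Finset.card_univ, ← Finset.prod_const]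
    refine Finset.prod_le_prod ?_ ?_
    · intro i _
      exact Finset.sum_nonneg fun z _ => cpow_nonneg _ (mix_prob _ (by norm_num) (by norm_num) _
        dirac_prob).1 _ _
    · intro i _
      exact sum_erase i t
  have h3 : 1 - (Fintype.card ι : ℝ) / P ≤
      ((Fintype.piFinset (fun i => (univ.erase 0 : Finset (H i)))).card : ℝ) /
        (Fintype.card (∀ i, H i) : ℝ) := by
    rw [Fintype.card_piFinset, Fintype.card_pi]
    push_cast
    rw [← Finset.prod_div_distrib]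
    have hP' : (0 : ℝ) < P := by exact_mod_cast hP
    have h4 : (1 - (1 : ℝ) / P) ^ (Fintype.card ι) ≤
        ∏ i, (((univ.erase 0 : Finset (H i)).card : ℝ) / (Fintype.card (H i) : ℝ)) := by
      rw [← Finset.card_univ, ← Finset.prod_const]
      refine Finset.prod_le_prod ?_ ?_
      · intro i _
        have : (1 : ℝ) / P ≤ 1 := by
          rw [div_le_one hP']
          exact_mod_cast hP
        linarith
      · intro i _
        have hc : (P : ℝ) ≤ Fintype.card (H i) := by exact_mod_cast h i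
        have hc0 : (0 : ℝ) < Fintype.card (H i) := lt_of_lt_of_le hP' hc
        rw [Finset.card_erase_of_mem (Finset.mem_univ _), Finset.card_univ]
        rw [Nat.cast_sub (by exact_mod_cast (show (1 : ℝ) ≤ Fintype.card (H i) by
          have : (1 : ℝ) ≤ P := by exact_mod_cast hP
          linarith))]
        rw [sub_div, div_self hc0.ne']
        have := one_div_le_one_div_of_le hP' hc
        push_cast
        linarith
    refine le_trans ?_ h4
    have h5 : (-2 : ℝ) ≤ -(1 / P) := by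
      have : (1 : ℝ) / P ≤ 1 := by
        rw [div_le_one hP']
        exact_mod_cast hP
      linarith
    have h6 := one_add_mul_le_pow h5 (Fintype.card ι)
    have h7 : (1 : ℝ) + -(1 / P) = 1 - 1 / P := by ring
    rw [h7] at h6
    refine le_trans (le_of_eq ?_) h6
    ring
  linarith

end product2

section characters

variable {G : Type*} [AddCommGroup G] [Fintype G] [DecidableEq G]

/-- Fourier transform at a character -/
def four (μ : G → ℝ) (ψ : AddChar G ℂ) : ℂ := ∑ x, (μ x : ℂ) * ψ x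

lemma norm_char (ψ : AddChar G ℂ) (x : G) : ‖ψ x‖ = 1 := by
  exact AddChar.norm_apply ψ x

lemma four_le_one (μ : G → ℝ) (h : IsProb μ) (ψ : AddChar G ℂ) : ‖four μ ψ‖ ≤ 1 := by
  unfold four
  refine le_trans (norm_sum_le _ _) ?_
  rw [← h.2]
  refine Finset.sum_le_sum fun x _ => ?_
  rw [norm_mul, norm_char, mul_one]
  simp [abs_of_nonneg (h.1 x)]

lemma four_mix (ε : ℝ) (ν : G → ℝ) (ψ : AddChar G ℂ) (h : ψ ≠ 1) :
    four (mix ε ν) ψ = (1 - ε) * four ν ψ := by
  unfold four mix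
  have h1 : ∑ x, ψ x = 0 := AddChar.sum_eq_zero_of_ne_one h
  have e1 : ∀ x, (((1 - ε) * ν x + ε * (1 / (Fintype.card G : ℝ)) : ℝ) : ℂ) * ψ x =
      (1 - ε) * (ν x * ψ x) + (ε * (1 / (Fintype.card G : ℂ))) * ψ x := by
    intro x; push_cast; ring
  rw [Finset.sum_congr rfl (fun x _ => e1 x), Finset.sum_add_distrib, ← Finset.mul_sum,
    ← Finset.mul_sum, h1, mul_zero, add_zero]

lemma four_dirac (ψ : AddChar G ℂ) : four dirac ψ = 1 := by
  unfold four
  rw [Finset.sum_eq_single (0 : G)]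
  · simp [dirac]
  · intro y _ hy
    simp [dirac, hy]
  · intro h
    exact absurd (Finset.mem_univ _) h

lemma char_sum {ι : Type*} [DecidableEq ι] (ψ : AddChar G ℂ) (s : Finset ι) (f : ι → G) :
    ψ (∑ i ∈ s, f i) = ∏ i ∈ s, ψ (f i) := by
  induction s using Finset.induction_on with
  | empty => simp
  | insert a s ha ih =>
    rw [Finset.sum_insert ha, Finset.prod_insert ha, AddChar.map_add_eq_mul, ih]

end characters

section characters2

variable {ι : Type*} [Fintype ι] [DecidableEq ι] {H : ι → Type*} [∀ i, AddCommGroup (H i)]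
  [∀ i, Fintype (H i)] [∀ i, DecidableEq (H i)]

lemma four_prodM (ν : ∀ i, H i → ℝ) (ψ : AddChar (∀ i, H i) ℂ) :
    four (prodM ν) ψ = ∏ i, four (ν i) (ψ.compAddMonoidHom (AddMonoidHom.single H i)) := by
  unfold four prodM
  rw [← sum_prod_pi (f := fun i z => (ν i z : ℂ) *
    ψ.compAddMonoidHom (AddMonoidHom.single H i) z)]
  refine Finset.sum_congr rfl fun g _ => ?_
  rw [Finset.prod_mul_distrib]
  push_cast
  congr 1
  have h1 : g = ∑ i, Pi.single i (g i) := (Finset.univ_sum_single g).symm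
  conv_lhs => rw [h1]
  rw [char_sum]
  rfl

lemma four_base (ψ : AddChar (∀ i, H i) ℂ) (h : ψ ≠ 1) : ‖four (base H) ψ‖ ≤ 1 / 2 := by
  have h1 : ∃ i, ψ.compAddMonoidHom (AddMonoidHom.single H i) ≠ 1 := by
    by_contra hc
    push Not at hc
    apply h
    ext g
    have h1 : g = ∑ i, Pi.single i (g i) := (Finset.univ_sum_single g).symm
    rw [h1, char_sum]
    simp only [AddChar.one_apply]
    refine Finset.prod_eq_one fun i _ => ?_
    have := congrArg (fun f => f (g i)) (hc i)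
    simpa using this
  obtain ⟨i, hi⟩ := h1
  unfold base
  rw [four_prodM, norm_prod, ← Finset.mul_prod_erase _ _ (Finset.mem_univ i)]
  have h2 : ‖four (mix (1 / 2) (dirac : H i → ℝ)) (ψ.compAddMonoidHom (AddMonoidHom.single H i))‖
      = 1 / 2 := by
    rw [four_mix _ _ _ hi, four_dirac]
    norm_num
  rw [h2]
  have h3 : ∏ j ∈ univ.erase i, ‖four (mix (1 / 2) (dirac : H j → ℝ))
      (ψ.compAddMonoidHom (AddMonoidHom.single H j))‖ ≤ 1 :=
    Finset.prod_le_one (fun j _ => norm_nonneg _) fun j _ =>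
      four_le_one _ (mix_prob _ (by norm_num) (by norm_num) _ dirac_prob) _
  linarith

end characters2

section cyclic

/-- The eigenvalue `μ̂(j) = ∑ x, μ(x) e^{2π i j x / n}` of the walk on `ℤ/nℤ` with step law `μ`. -/
def eig {n : ℕ} [NeZero n] (μ : ZMod n → ℝ) (j : ZMod n) : ℂ :=
  ∑ x : ZMod n, (μ x : ℂ) *
    Complex.exp (2 * Real.pi * Complex.I * ((j.val : ℂ) * (x.val : ℂ)) / (n : ℂ))

/-- The spectral gap `1 - max_{j ≠ 0} |μ̂(j)|`. -/
def gap {n : ℕ} [NeZero n] (μ : ZMod n → ℝ) : ℝ := 1 - ⨆ j : {j : ZMod n // j ≠ 0}, ‖eig μ j‖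

/-- The relaxation time. -/
def Trel {n : ℕ} [NeZero n] (μ : ZMod n → ℝ) : ℝ := 1 / gap μ

/-- Ergodicity: the support of `μ` is not contained in a coset of a proper subgroup. -/
def Ergodic {n : ℕ} [NeZero n] (μ : ZMod n → ℝ) : Prop :=
  ∀ (K : AddSubgroup (ZMod n)) (a : ZMod n), K ≠ ⊤ → ∃ x, μ x ≠ 0 ∧ x - a ∉ K

lemma eig_eq {n : ℕ} [NeZero n] (μ : ZMod n → ℝ) (j : ZMod n) :
    eig μ j = four μ (AddChar.mulShift ZMod.stdAddChar j) := by
  unfold eig four
  refine Finset.sum_congr rfl fun x _ => ?_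
  congr 1
  rw [AddChar.mulShift_apply]
  have h1 : j * x = (((j.val * x.val : ℕ) : ℤ) : ZMod n) := by
    push_cast
    rw [ZMod.natCast_zmod_val, ZMod.natCast_zmod_val]
  rw [h1, ZMod.stdAddChar_coe]
  push_cast
  rfl

/-- The product walk transported to a cyclic group. -/
lemma key (m : ℕ) (p : Fin m → ℕ) [∀ i, NeZero (p i)]
    (cop : Pairwise (Function.onFun Nat.Coprime p)) [NeZero (∏ i, p i)] (P : ℕ) (hP : 0 < P)
    (hp : ∀ i, P ≤ p i) :
    ∃ μ : ZMod (∏ i, p i) → ℝ, IsProb μ ∧ (∀ x, μ (-x) = μ x) ∧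
      (∀ j, j ≠ 0 → ‖eig μ j‖ ≤ 1 / 2) ∧
      ∀ t, 1 - (m : ℝ) / P - (1 - (1 / 2) ^ t) ^ m ≤ tv (cpow μ t) := by
  set φ : ZMod (∏ i, p i) ≃+ (∀ i, ZMod (p i)) := (ZMod.prodEquivPi p cop).toAddEquiv with hφ
  set H : Fin m → Type := fun i => ZMod (p i) with hH
  refine ⟨fun x => base H (φ x), ⟨fun x => base_prob.1 _, ?_⟩, ?_, ?_, ?_⟩
  · rw [← (base_prob (H := H)).2]
    exact Fintype.sum_equiv φ.toEquiv _ _ fun y => rfl
  · intro x
    unfold base prodM mix dirac
    simp [hH]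
  · intro j hj
    rw [eig_eq]
    have h1 : four (fun x => base H (φ x)) (AddChar.mulShift ZMod.stdAddChar j) =
        four (base H) ((AddChar.mulShift ZMod.stdAddChar j).compAddMonoidHom
          (φ.symm : (∀ i, ZMod (p i)) →+ ZMod (∏ i, p i))) := by
      unfold four
      refine Fintype.sum_equiv φ.toEquiv _ _ fun y => ?_
      simp
    rw [h1]
    refine four_base _ ?_
    intro hc
    apply ZMod.isPrimitive_stdAddChar (∏ i, p i) hj
    ext x
    have := congrArg (fun f => f (φ x)) hc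
    simpa using this
  · intro t
    have h1 : cpow (fun x => base H (φ x)) t = fun x => cpow (base H) t (φ x) := by
      funext x
      exact cpow_equiv φ (base H) t x
    rw [h1, tv_equiv φ (cpow (base H) t)]
    have h2 := tv_base (H := H) P hP (fun i => by simpa [hH] using hp i) t
    simpa using h2

lemma exp_bound (T : ℕ) : (1 - (1 / 2 : ℝ) ^ T) ^ (4 ^ T) ≤ 1 / (T + 1) := by
  have h1 : 1 - (1 / 2 : ℝ) ^ T ≤ Real.exp (-((1 / 2 : ℝ) ^ T)) := Real.one_sub_le_exp_neg _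
  have h2 : 0 ≤ 1 - (1 / 2 : ℝ) ^ T := by
    have : (1 / 2 : ℝ) ^ T ≤ 1 := pow_le_one₀ (by norm_num) (by norm_num)
    linarith
  have h3 : (1 - (1 / 2 : ℝ) ^ T) ^ (4 ^ T) ≤ Real.exp (-(2 : ℝ) ^ T) := by
    calc (1 - (1 / 2 : ℝ) ^ T) ^ (4 ^ T) ≤ (Real.exp (-((1 / 2 : ℝ) ^ T))) ^ (4 ^ T) :=
          pow_le_pow_left₀ h2 h1 _
      _ = Real.exp (-(2 : ℝ) ^ T) := by
        rw [← Real.exp_nat_mul]
        congr 1
        push_cast
        rw [mul_neg, ← mul_pow]
        norm_num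
  refine le_trans h3 ?_
  rw [Real.exp_neg, ← one_div]
  have h4 : (T : ℝ) + 1 ≤ Real.exp ((2 : ℝ) ^ T) := by
    have h5 : (2 : ℝ) ^ T + 1 ≤ Real.exp ((2 : ℝ) ^ T) := Real.add_one_le_exp _
    have h6 : (T : ℝ) ≤ 2 ^ T := by exact_mod_cast (Nat.lt_two_pow_self).le
    linarith
  exact one_div_le_one_div_of_le (by positivity) h4

lemma key2 (k : ℕ) : ∃ (n : ℕ) (_ : NeZero n) (μ : ZMod n → ℝ), k + 2 ≤ n ∧ IsProb μ ∧
    (∀ x, μ (-x) = μ x) ∧ (∀ x, 0 < μ x) ∧ (∀ j, j ≠ 0 → ‖eig μ j‖ ≤ 1 / 2) ∧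
    (∀ t, tv (cpow μ t) ≤ (1 - 1 / ((k : ℝ) + 2)) ^ t) ∧
    (∀ t : ℕ, (t : ℝ) ≤ ((k : ℝ) + 1) ^ 2 →
      (1 - 2 / ((k : ℝ) + 1)) * (1 - 1 / ((k : ℝ) + 2)) ^ t ≤ tv (cpow μ t)) := by
  set T : ℕ := (k + 1) ^ 2 with hT
  set m : ℕ := 4 ^ T with hm
  have hmpos : 0 < m := by positivity
  set p : Fin m → ℕ := fun i => Nat.fermatNumber (i + m * (k + 1)) with hp
  have : ∀ i, NeZero (p i) := fun i => ⟨by
    have := Nat.three_le_fermatNumber (i + m * (k + 1))
    simp only [hp]; omega⟩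
  have cop : Pairwise (Function.onFun Nat.Coprime p) := by
    intro i j hij
    refine Nat.coprime_fermatNumber_fermatNumber ?_
    intro h
    apply hij
    ext
    omega
  have hfer : ∀ N, N + 1 ≤ Nat.fermatNumber N := by
    intro N
    unfold Nat.fermatNumber
    have h1 : N < 2 ^ N := Nat.lt_two_pow_self
    have h2 : 2 ^ N < 2 ^ (2 ^ N) := Nat.lt_two_pow_self
    omega
  have hP : ∀ i, m * (k + 1) ≤ p i := by
    intro i
    have := hfer (i + m * (k + 1))
    simp only [hp]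
    omega
  have : NeZero (∏ i, p i) := ⟨Finset.prod_ne_zero_iff.2 fun i _ => NeZero.ne _⟩
  have hn : k + 2 ≤ ∏ i, p i := by
    have h1 : p ⟨0, hmpos⟩ ∣ ∏ i, p i := Finset.dvd_prod_of_mem _ (Finset.mem_univ _)
    have h2 : p ⟨0, hmpos⟩ ≤ ∏ i, p i := Nat.le_of_dvd (Nat.pos_of_ne_zero (NeZero.ne _)) h1
    have h3 := hfer ((⟨0, hmpos⟩ : Fin m) + m * (k + 1))
    have h4 : k + 1 ≤ m * (k + 1) := Nat.le_mul_of_pos_left _ hmpos
    have h5 : p ⟨0, hmpos⟩ = Nat.fermatNumber ((⟨0, hmpos⟩ : Fin m) + m * (k + 1)) := rfl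
    have h6 : m * (k + 1) ≤ ((⟨0, hmpos⟩ : Fin m) : ℕ) + m * (k + 1) := Nat.le_add_left _ _
    omega
  obtain ⟨μ, h1, h2, h3, h4⟩ := key m p cop (m * (k + 1)) (by positivity) hP
  set e : ℝ := 1 / ((k : ℝ) + 2) with he
  have he0 : 0 < e := by positivity
  have he1 : e < 1 := by
    rw [he, div_lt_one (by positivity)]
    linarith [(Nat.cast_nonneg k : (0 : ℝ) ≤ k)]
  refine ⟨∏ i, p i, inferInstance, mix e μ, hn, mix_prob e he0.le he1.le μ h1, ?_, ?_, ?_, ?_, ?_⟩
  · intro x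
    unfold mix
    rw [h2]
  · intro x
    unfold mix
    have h5 : 0 ≤ (1 - e) * μ x := mul_nonneg (by linarith) (h1.1 x)
    have h6 : (0 : ℝ) < 1 / (Fintype.card (ZMod (∏ i, p i)) : ℝ) := by
      have : (0 : ℝ) < Fintype.card (ZMod (∏ i, p i)) := by
        exact_mod_cast Fintype.card_pos_iff.2 ⟨0⟩
      positivity
    have h7 : 0 < e * (1 / (Fintype.card (ZMod (∏ i, p i)) : ℝ)) := mul_pos he0 h6
    linarith
  · intro j hj
    rw [eig_eq, four_mix _ _ _ (ZMod.isPrimitive_stdAddChar _ hj), ← eig_eq, norm_mul]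
    have h5 : ‖(1 - (e : ℂ))‖ ≤ 1 := by
      have : (1 - (e : ℂ)) = ((1 - e : ℝ) : ℂ) := by push_cast; rfl
      rw [this, Complex.norm_real, Real.norm_eq_abs, abs_of_nonneg (by linarith)]
      linarith
    have h6 := h3 j hj
    calc ‖(1 - (e : ℂ))‖ * ‖eig μ j‖ ≤ 1 * (1 / 2) :=
          mul_le_mul h5 h6 (norm_nonneg _) (by norm_num)
      _ = 1 / 2 := by ring
  · intro t
    rw [tv_cpow_mix e he1.le μ h1.2]
    have h5 : tv (cpow μ t) ≤ 1 := tv_le_one _ (cpow_nonneg μ h1.1 t) (sum_cpow μ h1.2 t)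
    have h6 : 0 ≤ (1 - e) ^ t := pow_nonneg (by linarith) _
    calc (1 - e) ^ t * tv (cpow μ t) ≤ (1 - e) ^ t * 1 := mul_le_mul_of_nonneg_left h5 h6
      _ = _ := mul_one _
  · intro t ht
    rw [tv_cpow_mix e he1.le μ h1.2, mul_comm]
    have h6 : 0 ≤ (1 - e) ^ t := pow_nonneg (by linarith) _
    refine mul_le_mul_of_nonneg_left ?_ h6
    refine le_trans ?_ (h4 t)
    have htT : t ≤ T := by
      have : (t : ℝ) ≤ ((T : ℕ) : ℝ) := by rw [hT]; push_cast; exact ht
      exact_mod_cast this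
    have h7 : (m : ℝ) / ((m * (k + 1) : ℕ) : ℝ) = 1 / ((k : ℝ) + 1) := by
      push_cast
      have : (m : ℝ) ≠ 0 := by exact_mod_cast hmpos.ne'
      field_simp
    have h8 : (1 - (1 / 2 : ℝ) ^ t) ^ m ≤ 1 / ((k : ℝ) + 1) := by
      have h9 : (1 / 2 : ℝ) ^ T ≤ (1 / 2 : ℝ) ^ t :=
        pow_le_pow_of_le_one (by norm_num) (by norm_num) htT
      have h10 : (0 : ℝ) ≤ 1 - (1 / 2 : ℝ) ^ t := by
        have : (1 / 2 : ℝ) ^ t ≤ 1 := pow_le_one₀ (by norm_num) (by norm_num)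
        linarith
      calc (1 - (1 / 2 : ℝ) ^ t) ^ m ≤ (1 - (1 / 2 : ℝ) ^ T) ^ m :=
            pow_le_pow_left₀ h10 (by linarith) _
        _ ≤ 1 / ((T : ℝ) + 1) := exp_bound T
        _ ≤ 1 / ((k : ℝ) + 1) := by
          apply one_div_le_one_div_of_le (by positivity)
          have : (k : ℝ) ≤ (T : ℝ) := by
            rw [hT]
            push_cast
            nlinarith [(Nat.cast_nonneg k : (0 : ℝ) ≤ k)]
          linarith
    rw [h7]
    have : (2 : ℝ) / ((k : ℝ) + 1) = 1 / ((k : ℝ) + 1) + 1 / ((k : ℝ) + 1) := by ring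
    linarith

lemma asymp (e T κ : ℕ → ℝ) (d : ℕ → ℕ → ℝ) (he0 : ∀ k, 0 < e k) (he1 : ∀ k, e k < 1)
    (he : Tendsto e atTop (𝓝 0)) (hT : Tendsto (fun k => e k * T k) atTop atTop)
    (hκ : Tendsto κ atTop (𝓝 0)) (hu : ∀ k t, d k t ≤ (1 - e k) ^ t)
    (hl : ∀ k (t : ℕ), (t : ℝ) ≤ T k → (1 - κ k) * (1 - e k) ^ t ≤ d k t)
    (η : ℝ) (h0 : 0 < η) (h1 : η < 1) :
    Tendsto (fun k => e k * ((sInf {t : ℕ | d k t ≤ η} : ℕ) : ℝ)) atTop (𝓝 (-Real.log η)) := by
  have hlog : Real.log η < 0 := Real.log_neg h0 h1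
  have up : ∀ k, e k * ((sInf {t : ℕ | d k t ≤ η} : ℕ) : ℝ) ≤ -Real.log η + e k := by
    intro k
    rcases Nat.eq_zero_or_pos (sInf {t : ℕ | d k t ≤ η}) with h | h
    · rw [h]
      have := he0 k
      push_cast
      linarith
    · obtain ⟨t, ht⟩ := Nat.exists_eq_succ_of_ne_zero h.ne'
      have h2 : t ∉ {t : ℕ | d k t ≤ η} := Nat.notMem_of_lt_sInf (by rw [ht]; exact Nat.lt_succ_self t)
      have h3 : η < d k t := not_le.1 h2
      have h4 : (1 - e k) ^ t ≤ Real.exp (-(e k * t)) := by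
        have h5 : 1 - e k ≤ Real.exp (-(e k)) := Real.one_sub_le_exp_neg _
        have h6 : 0 ≤ 1 - e k := by linarith [he1 k]
        calc (1 - e k) ^ t ≤ (Real.exp (-(e k))) ^ t := pow_le_pow_left₀ h6 h5 t
          _ = Real.exp (-(e k * t)) := by rw [← Real.exp_nat_mul]; ring_nf
      have h5 : η < Real.exp (-(e k * t)) := lt_of_lt_of_le h3 (le_trans (hu k t) h4)
      have h6 : Real.log η < -(e k * t) := (Real.log_lt_iff_lt_exp h0).2 h5
      rw [ht]
      push_cast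
      linarith
  have lowt : Tendsto (fun k => (1 - e k) * (Real.log (1 - κ k) - Real.log η)) atTop
      (𝓝 (-Real.log η)) := by
    have h2 : Tendsto (fun k => Real.log (1 - κ k)) atTop (𝓝 (Real.log (1 - 0))) := by
      refine Tendsto.log (tendsto_const_nhds.sub hκ) (by norm_num)
    rw [sub_zero, Real.log_one] at h2
    have h3 : Tendsto (fun k => (1 - e k) * (Real.log (1 - κ k) - Real.log η)) atTop
      (𝓝 ((1 - 0) * (0 - Real.log η))) :=
      (tendsto_const_nhds.sub he).mul (h2.sub tendsto_const_nhds)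
    simpa using h3
  have low : ∀ᶠ k in atTop, (1 - e k) * (Real.log (1 - κ k) - Real.log η) ≤
      e k * ((sInf {t : ℕ | d k t ≤ η} : ℕ) : ℝ) := by
    have h2 : ∀ᶠ k in atTop, (1 - e k) * (Real.log (1 - κ k) - Real.log η) < -Real.log η + 1 :=
      lowt.eventually (gt_mem_nhds (by linarith))
    have h3 : ∀ᶠ k in atTop, -Real.log η + 1 ≤ e k * T k := hT.eventually (eventually_ge_atTop _)
    have h4 : ∀ᶠ k in atTop, κ k < 1 := hκ.eventually (gt_mem_nhds one_pos)
    filter_upwards [h2, h3, h4] with k h2 h3 h4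
    have hne : {t : ℕ | d k t ≤ η}.Nonempty := by
      obtain ⟨t, ht⟩ := exists_pow_lt_of_lt_one h0 (show 1 - e k < 1 by linarith [he0 k])
      exact ⟨t, le_trans (hu k t) ht.le⟩
    have h5 : d k (sInf {t : ℕ | d k t ≤ η}) ≤ η := Nat.sInf_mem hne
    set N := sInf {t : ℕ | d k t ≤ η} with hN
    by_cases hc : (N : ℝ) ≤ T k
    · have h6 := le_trans (hl k N hc) h5
      have h7 : 0 < 1 - e k := by linarith [he1 k]
      have h8 : 0 < 1 - κ k := by linarith
      have h9 : Real.log ((1 - κ k) * (1 - e k) ^ N) ≤ Real.log η :=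
        Real.log_le_log (by positivity) h6
      rw [Real.log_mul h8.ne' (by positivity), Real.log_pow] at h9
      have h10 : 1 - (1 - e k)⁻¹ ≤ Real.log (1 - e k) := Real.one_sub_inv_le_log_of_pos h7
      have h11 : (N : ℝ) * (1 - (1 - e k)⁻¹) ≤ N * Real.log (1 - e k) :=
        mul_le_mul_of_nonneg_left h10 (Nat.cast_nonneg _)
      have h12 : Real.log (1 - κ k) - Real.log η ≤ N * ((1 - e k)⁻¹ - 1) := by nlinarith
      calc (1 - e k) * (Real.log (1 - κ k) - Real.log η)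
          ≤ (1 - e k) * (N * ((1 - e k)⁻¹ - 1)) := mul_le_mul_of_nonneg_left h12 h7.le
        _ = e k * N := by field_simp; ring
    · push Not at hc
      have h6 : e k * T k ≤ e k * N := mul_le_mul_of_nonneg_left hc.le (he0 k).le
      linarith
  have upt : Tendsto (fun k => -Real.log η + e k) atTop (𝓝 (-Real.log η)) := by
    simpa using tendsto_const_nhds.add he
  exact tendsto_of_tendsto_of_tendsto_of_le_of_le' lowt upt low (Eventually.of_forall up)

/-- The Peres conjecture for convolution walks on cycles, as posed in the problem: for all sequences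
`n k → ∞` and all probability measures `μ k` on `ℤ/(n k)ℤ` with ergodic convolution walk, the
condition `T_rel / T_mix(1/2) → 0` holds if and only if there is a total variation cutoff, that is,
`T_mix(ε) / T_mix(1-ε) → 1` for every fixed `ε ∈ (0,1/2)`. -/
def PeresOnCycles : Prop :=
  ∀ (n : ℕ → ℕ) (_ : ∀ k, NeZero (n k)) (μ : ∀ k, ZMod (n k) → ℝ),
    (∀ k, 2 ≤ n k) → Tendsto n atTop atTop → (∀ k, IsProb (μ k)) → (∀ k, Ergodic (μ k)) →
    (Tendsto (fun k => Trel (μ k) / (Tmix (μ k) (1 / 2) : ℝ)) atTop (𝓝 0) ↔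
      ∀ ε : ℝ, 0 < ε → ε < 1 / 2 →
        Tendsto (fun k => (Tmix (μ k) ε : ℝ) / (Tmix (μ k) (1 - ε) : ℝ)) atTop (𝓝 1))

/-- There are symmetric, everywhere positive probability measures `μ k` on cyclic groups
`ℤ/(n k)ℤ`, `n k → ∞`, with relaxation times at most `2`, with `T_mix(ε) → ∞` for every
`ε ∈ (0,1)`, and with `T_mix(ε) / T_mix(δ) → log ε / log δ` for all `ε, δ ∈ (0,1)`. -/
theorem example_seq : ∃ (n : ℕ → ℕ) (_ : ∀ k, NeZero (n k)) (μ : ∀ k, ZMod (n k) → ℝ),
    (∀ k, 2 ≤ n k) ∧ Tendsto n atTop atTop ∧ (∀ k, IsProb (μ k)) ∧ (∀ k, Ergodic (μ k)) ∧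
    (∀ k x, μ k (-x) = μ k x) ∧ (∀ k x, 0 < μ k x) ∧
    (∀ k, 0 < Trel (μ k) ∧ Trel (μ k) ≤ 2) ∧
    (∀ ε : ℝ, 0 < ε → ε < 1 → Tendsto (fun k => (Tmix (μ k) ε : ℝ)) atTop atTop) ∧
    ∀ ε δ : ℝ, 0 < ε → ε < 1 → 0 < δ → δ < 1 →
      Tendsto (fun k => (Tmix (μ k) ε : ℝ) / (Tmix (μ k) δ : ℝ)) atTop
        (𝓝 (Real.log ε / Real.log δ)) := by
  choose n inst μ h1 h2 h3 h4 h5 h6 h7 using key2
  have hcast : Tendsto (fun k : ℕ => (k : ℝ)) atTop atTop := tendsto_natCast_atTop_atTop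
  have hk1 : Tendsto (fun k : ℕ => (k : ℝ) + 1) atTop atTop := tendsto_atTop_add_const_right _ _ hcast
  have hk2 : Tendsto (fun k : ℕ => (k : ℝ) + 2) atTop atTop := tendsto_atTop_add_const_right _ _ hcast
  have he : Tendsto (fun k : ℕ => 1 / ((k : ℝ) + 2)) atTop (𝓝 0) := by
    have h := hk2.inv_tendsto_atTop
    refine h.congr fun k => ?_
    simp
  have hκ : Tendsto (fun k : ℕ => 2 / ((k : ℝ) + 1)) atTop (𝓝 0) := by
    have h := hk1.inv_tendsto_atTop.const_mul 2
    rw [mul_zero] at h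
    refine h.congr fun k => ?_
    simp [div_eq_mul_inv]
  have he0 : ∀ k : ℕ, 0 < 1 / ((k : ℝ) + 2) := fun k => by positivity
  have he1 : ∀ k : ℕ, 1 / ((k : ℝ) + 2) < 1 := fun k => by
    rw [div_lt_one (by positivity)]
    linarith [(Nat.cast_nonneg k : (0 : ℝ) ≤ k)]
  have hT : Tendsto (fun k : ℕ => 1 / ((k : ℝ) + 2) * ((k : ℝ) + 1) ^ 2) atTop atTop := by
    refine tendsto_atTop_mono (fun k => ?_) hcast
    rw [div_mul_eq_mul_div, one_mul, le_div_iff₀ (by positivity)]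
    nlinarith [(Nat.cast_nonneg k : (0 : ℝ) ≤ k)]
  have lim : ∀ η : ℝ, 0 < η → η < 1 →
      Tendsto (fun k : ℕ => 1 / ((k : ℝ) + 2) * (Tmix (μ k) η : ℝ)) atTop (𝓝 (-Real.log η)) := by
    intro η h0 h1
    exact asymp (fun k => 1 / ((k : ℝ) + 2)) (fun k => ((k : ℝ) + 1) ^ 2)
      (fun k => 2 / ((k : ℝ) + 1)) (fun k t => tv (cpow (μ k) t)) he0 he1 he hT hκ h6 h7 η h0 h1
  refine ⟨n, inst, μ, fun k => le_trans (by omega) (h1 k), ?_, h2, ?_, h3, h4, ?_, ?_, ?_⟩
  · exact tendsto_atTop_mono (fun k => le_trans (Nat.le_add_right k 2) (h1 k)) tendsto_id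
  · intro k K a hK
    obtain ⟨y, hy⟩ : ∃ y, y ∉ K := by
      by_contra hc
      push Not at hc
      exact hK (by ext z; simp [hc z])
    exact ⟨y + a, (h4 k _).ne', by simpa using hy⟩
  · intro k
    have hne : Nonempty {j : ZMod (n k) // j ≠ 0} := by
      have h8 : 1 < n k := lt_of_lt_of_le (by omega) (h1 k)
      have : Fact (1 < n k) := ⟨h8⟩
      exact ⟨⟨1, one_ne_zero⟩⟩
    have h8 : ⨆ j : {j : ZMod (n k) // j ≠ 0}, ‖eig (μ k) j‖ ≤ 1 / 2 :=
      ciSup_le fun j => h5 k j j.2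
    have h9 : 1 / 2 ≤ gap (μ k) := by unfold gap; linarith
    unfold Trel
    constructor
    · positivity
    · rw [div_le_iff₀ (by linarith)]
      linarith
  · intro ε h0 h1'
    have h8 := lim ε h0 h1'
    have h9 : Tendsto (fun k : ℕ => ((k : ℝ) + 2) * (1 / ((k : ℝ) + 2) * (Tmix (μ k) ε : ℝ))) atTop
        atTop := hk2.atTop_mul_pos (neg_pos.2 (Real.log_neg h0 h1')) h8
    refine h9.congr fun k => ?_
    have : (k : ℝ) + 2 ≠ 0 := by positivity
    field_simp
  · intro ε δ h0 h1' h2' h3'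
    have h8 := (lim ε h0 h1').div (lim δ h2' h3') (neg_ne_zero.2 (Real.log_neg h2' h3').ne)
    rw [neg_div_neg_eq] at h8
    refine h8.congr fun k => ?_
    have h10 : (1 : ℝ) / ((k : ℝ) + 2) ≠ 0 := (he0 k).ne'
    simp only [Pi.div_apply]
    rw [mul_div_mul_left _ _ h10]

/-- **The Peres conjecture fails for random walks on cycles**, already for symmetric measures with
bounded relaxation time. -/
theorem result : ¬ PeresOnCycles ∧
    ∃ (n : ℕ → ℕ) (_ : ∀ k, NeZero (n k)) (μ : ∀ k, ZMod (n k) → ℝ),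
    (∀ k, 2 ≤ n k) ∧ Tendsto n atTop atTop ∧ (∀ k, IsProb (μ k)) ∧ (∀ k, Ergodic (μ k)) ∧
    (∀ k x, μ k (-x) = μ k x) ∧ (∀ k x, 0 < μ k x) ∧
    (∀ k, 0 < Trel (μ k) ∧ Trel (μ k) ≤ 2) ∧
    (∀ ε : ℝ, 0 < ε → ε < 1 → Tendsto (fun k => (Tmix (μ k) ε : ℝ)) atTop atTop) ∧
    ∀ ε δ : ℝ, 0 < ε → ε < 1 → 0 < δ → δ < 1 →
      Tendsto (fun k => (Tmix (μ k) ε : ℝ) / (Tmix (μ k) δ : ℝ)) atTop
        (𝓝 (Real.log ε / Real.log δ)) := by
  refine ⟨fun hP => ?_, example_seq⟩
  obtain ⟨n, inst, μ, h1, h2, h3, h4, h5, h6, h7, h8, h9⟩ := example_seq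
  have hprod : Tendsto (fun k => Trel (μ k) / (Tmix (μ k) (1 / 2) : ℝ)) atTop (𝓝 0) := by
    have h10 : Tendsto (fun k => 2 / (Tmix (μ k) (1 / 2) : ℝ)) atTop (𝓝 0) := by
      have h := (h8 (1 / 2) (by norm_num) (by norm_num)).inv_tendsto_atTop.const_mul 2
      rw [mul_zero] at h
      refine h.congr fun k => ?_
      simp [div_eq_mul_inv]
    refine squeeze_zero (fun k => ?_) (fun k => ?_) h10
    · exact div_nonneg (h7 k).1.le (Nat.cast_nonneg _)
    · exact div_le_div_of_nonneg_right (h7 k).2 (Nat.cast_nonneg _)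
  have hcut := (hP n inst μ h1 h2 h3 h4).1 hprod (1 / 4) (by norm_num) (by norm_num)
  have h10 := h9 (1 / 4) (1 - 1 / 4) (by norm_num) (by norm_num) (by norm_num) (by norm_num)
  have h11 := tendsto_nhds_unique hcut h10
  have h12 : Real.log (1 - 1 / 4) < 0 := Real.log_neg (by norm_num) (by norm_num)
  rw [eq_div_iff h12.ne, one_mul] at h11
  have h13 : Real.log (1 / 4) < Real.log (1 - 1 / 4) :=
    Real.log_lt_log (by norm_num) (by norm_num)
  linarith

end cyclic

end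

end Pool.Agent.Results.MP_ee50b4_pr.NoCutoff
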